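import Pool.Agent.Helper30.N9.Sheet2

/-! MP_9b91d1_co: row FLIP of helper30's second sheet. -/

open scoped RealInnerProductSpace Topology

namespace Pool.Agent.Helper30.N9

namespace PlaneGraph

variable {V : Type} [Fintype V] [DecidableEq V] {M : PlaneGraph V}

theorem flip_mem_bd {T : Set M.Face} {d : M.G.Dart} :
    d ∈ M.bd T ↔ M.fc d ∈ T ∧ M.fc d.symm ∉ T := by
  simp [bd]

open Classical in
/-- The sum over the faces of `T` is the sum over the boundary and the inner darts. -/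
theorem flip_sum {A : Type*} [AddCommMonoid A] (T : Finset M.Face) (F : M.G.Dart → A) :
    ∑ w ∈ T, ∑ e ∈ M.fdarts w, F e = ∑ e ∈ M.bd (T : Set M.Face), F e +
      ∑ e ∈ Finset.univ.filter (fun e : M.G.Dart => M.fc e ∈ T ∧ M.fc e.symm ∈ T), F e := by
  have h1 : ∑ w ∈ T, ∑ e ∈ M.fdarts w, F e =
      ∑ e ∈ Finset.univ.filter (fun e : M.G.Dart => M.fc e ∈ T), F e := by
    unfold fdarts
    simp only [Finset.sum_filter]
    rw [Finset.sum_comm]
    refine Finset.sum_congr rfl fun e _ => ?_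
    rw [Finset.sum_ite_eq]
  rw [h1, ← Finset.sum_filter_add_sum_filter_not _ (fun e : M.G.Dart => M.fc e.symm ∉ T)]
  congr 1
  · refine Finset.sum_congr ?_ fun _ _ => rfl
    ext d
    rw [flip_mem_bd]
    simp
  · refine Finset.sum_congr ?_ fun _ _ => rfl
    ext d
    simp

/-- The boundary of a set of faces is a closed chain. -/
theorem InC.flip_chain {q : V → E3} (hq : M.InC q) (T : Finset M.Face) :
    Chain (M.bd (T : Set M.Face)) (M.ga q) (M.gb q) where
  ua := fun i _ => hq.unit _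
  ub := fun i _ => hq.unit _
  ne := fun i _ => hq.q_ne i
  nn := fun i _ => hq.ne_neg i
  closed := by
    classical
    intro g
    have h1 := flip_sum T (fun e : M.G.Dart => g (q e.snd))
    have h2 := flip_sum T (fun e : M.G.Dart => g (q e.fst))
    have h3 : ∑ w ∈ T, ∑ e ∈ M.fdarts w, g (q e.snd) = ∑ w ∈ T, ∑ e ∈ M.fdarts w, g (q e.fst) :=
      Finset.sum_congr rfl fun w _ => sum_snd w fun v => g (q v)
    have h4 : ∑ e ∈ Finset.univ.filter (fun e : M.G.Dart => M.fc e ∈ T ∧ M.fc e.symm ∈ T),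
        g (q e.snd) = ∑ e ∈ Finset.univ.filter
          (fun e : M.G.Dart => M.fc e ∈ T ∧ M.fc e.symm ∈ T), g (q e.fst) := by
      refine Finset.sum_bij' (fun d _ => d.symm) (fun d _ => d.symm) ?_ ?_ ?_ ?_ ?_
      · intro d hd
        rw [Finset.mem_filter] at hd ⊢
        exact ⟨Finset.mem_univ _, hd.2.2, by rw [SimpleGraph.Dart.symm_symm]; exact hd.2.1⟩
      · intro d hd
        rw [Finset.mem_filter] at hd ⊢
        exact ⟨Finset.mem_univ _, hd.2.2, by rw [SimpleGraph.Dart.symm_symm]; exact hd.2.1⟩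
      · intro d _; exact SimpleGraph.Dart.symm_symm d
      · intro d _; exact SimpleGraph.Dart.symm_symm d
      · intro d _; rfl
    rw [h1, h2, h4] at h3
    exact add_right_cancel h3

/-- The areas seen from a point off the drawing. -/
theorem InC.flip_SA {q : V → E3} (hq : M.InC q) (T : Finset M.Face) {z : E3} (hz : ‖z‖ = 1)
    (ho : M.OffAll q z) :
    ∑ w ∈ T, SA (M.fdarts w) (M.ga q) (M.gb q) (-z) =
      SA (M.bd (T : Set M.Face)) (M.ga q) (M.gb q) (-z) := by
  classical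
  unfold SA
  rw [flip_sum T (fun e => Om (-z) (M.ga q e) (M.gb q e))]
  have h1 : ∑ e ∈ Finset.univ.filter (fun e : M.G.Dart => M.fc e ∈ T ∧ M.fc e.symm ∈ T),
      Om (-z) (M.ga q e) (M.gb q e) = - ∑ e ∈ Finset.univ.filter
        (fun e : M.G.Dart => M.fc e ∈ T ∧ M.fc e.symm ∈ T), Om (-z) (M.ga q e) (M.gb q e) := by
    rw [← Finset.sum_neg_distrib]
    refine Finset.sum_bij' (fun d _ => d.symm) (fun d _ => d.symm) ?_ ?_ ?_ ?_ ?_
    · intro d hd
      rw [Finset.mem_filter] at hd ⊢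
      exact ⟨Finset.mem_univ _, hd.2.2, by rw [SimpleGraph.Dart.symm_symm]; exact hd.2.1⟩
    · intro d hd
      rw [Finset.mem_filter] at hd ⊢
      exact ⟨Finset.mem_univ _, hd.2.2, by rw [SimpleGraph.Dart.symm_symm]; exact hd.2.1⟩
    · intro d _; exact SimpleGraph.Dart.symm_symm d
    · intro d _; exact SimpleGraph.Dart.symm_symm d
    · intro d _
      have h2 := Om_swap (slit_of_not_mem hz (hq.unit _) (hq.unit _) (hq.q_ne d) (hq.ne_neg d)
        (ho d))
      change Om (-z) (q d.fst) (q d.snd) = - Om (-z) (q d.snd) (q d.fst)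
      rw [h2, neg_neg]
  linarith

/-- A point off the drawing near `-g`. -/
theorem InC.flip_gen {q : V → E3} (hq : M.InC q) (T : Finset M.Face) {g : E3}
    (hg : Centre (M.bd (T : Set M.Face)) (M.ga q) (M.gb q) g) :
    ∃ z : E3, ‖z‖ = 1 ∧ M.OffAll q z ∧ Centre (M.bd (T : Set M.Face)) (M.ga q) (M.gb q) (-z) := by
  classical
  let s : Finset E3 := Finset.univ.image fun d : M.G.Dart => crs (q d.fst) (q d.snd)
  have hs : ∀ n ∈ s, n ≠ 0 := by
    intro n hn
    obtain ⟨d, -, rfl⟩ := Finset.mem_image.1 hn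
    intro h0
    have h1 := crs_pos (hq.unit d.fst) (hq.unit d.snd) (hq.q_ne d) (hq.ne_neg d)
    rw [h0, inner_zero_left] at h1
    exact lt_irrefl _ h1
  let O : Set E3 := {y | y ≠ 0} ∩
    ⋂ d ∈ M.bd (T : Set M.Face), ({y | 0 < ⟪-y, M.ga q d⟫} ∩ {y | 0 < ⟪-y, M.gb q d⟫})
  have hO : IsOpen O := by
    refine isOpen_ne.inter ?_
    refine isOpen_biInter_finset fun d _ => IsOpen.inter ?_ ?_
    · exact isOpen_lt continuous_const (by fun_prop)
    · exact isOpen_lt continuous_const (by fun_prop)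
  have hne : O.Nonempty := by
    refine ⟨-g, ?_, ?_⟩
    · exact neg_ne_zero.2 (ne_zero_of_unit hg.1)
    · rw [Set.mem_iInter₂]
      intro d hd
      refine ⟨?_, ?_⟩
      · change 0 < ⟪- -g, M.ga q d⟫
        rw [neg_neg]
        exact (hg.2 d hd).1
      · change 0 < ⟪- -g, M.gb q d⟫
        rw [neg_neg]
        exact (hg.2 d hd).2
  obtain ⟨y, ⟨hy0, hyO⟩, hyn⟩ := exists_generic s hs hO hne
  have hy0' : y ≠ 0 := hy0
  refine ⟨nrm y, norm_nrm hy0', ?_, ?_, ?_⟩
  · intro d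
    apply not_mem_arc_of_det
    rw [← crs_inner]
    exact hyn _ (Finset.mem_image_of_mem _ (Finset.mem_univ d))
  · rw [norm_neg]
    exact norm_nrm hy0'
  · intro d hd
    rw [Set.mem_iInter₂] at hyO
    obtain ⟨h1, h2⟩ := hyO d hd
    have h1' : 0 < ⟪-y, M.ga q d⟫ := h1
    have h2' : 0 < ⟪-y, M.gb q d⟫ := h2
    have hp : 0 < ‖y‖⁻¹ := inv_pos.2 (norm_pos_iff.2 hy0')
    unfold nrm
    rw [← smul_neg, real_inner_smul_left, real_inner_smul_left]
    exact ⟨mul_pos hp h1', mul_pos hp h2'⟩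

end PlaneGraph

open PlaneGraph in
theorem st_FLIP : ST_FLIP := by
  intro V _ _ M q h T g hG hg
  obtain ⟨z, hz, ho, hzc⟩ := hG.inC.flip_gen T hg
  have h1 := hG.inC.flip_SA T hz ho
  rw [(hG.inC.flip_chain T).centre_indep hzc hg] at h1
  obtain ⟨w0, hw0, hw⟩ := tiling hG.per hG.c3 hG.inC hG.cen hz ho
  have hpi := Real.pi_pos
  have h2 : ∀ w, SA (M.fdarts w) (M.ga q) (M.gb q) (h w) =
      SA (M.fdarts w) (M.ga q) (M.gb q) (-z) + 4 * Real.pi * M.FW q h w z := by
    intro w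
    unfold FW W
    field_simp
    ring
  have h3 : ∑ w ∈ T, SA (M.fdarts w) (M.ga q) (M.gb q) (h w) =
      SA (M.bd (T : Set M.Face)) (M.ga q) (M.gb q) g + 4 * Real.pi * ∑ w ∈ T, M.FW q h w z := by
    rw [← h1, Finset.mul_sum, ← Finset.sum_add_distrib]
    exact Finset.sum_congr rfl fun w _ => h2 w
  by_cases hT : w0 ∈ T
  · right
    have h4 : ∑ w ∈ T, M.FW q h w z = 1 := by
      rw [Finset.sum_eq_single_of_mem w0 hT fun w _ hne => hw w hne, hw0]
    rw [h3, h4, mul_one]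
  · left
    have h4 : ∑ w ∈ T, M.FW q h w z = 0 := by
      refine Finset.sum_eq_zero fun w hwT => hw w ?_
      rintro rfl
      exact hT hwT
    rw [h3, h4, mul_zero, add_zero]

end Pool.Agent.Helper30.N9
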