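import Pool.Agent.Helper30.N9.Sheet

/-! MP_9b91d1_co: row FARKAS of helper30's sheet. -/

open scoped RealInnerProductSpace Topology

namespace Pool.Agent.Helper30.N9

namespace H97

open Filter

/-- Alternative of Gordan for families of tuples of vectors. -/
theorem gordan {ι V : Type} [Fintype ι] [DecidableEq ι] [Fintype V] [DecidableEq V] [Nonempty ι]
    (a : ι → V → E3) :
    (∃ w : ι → ℝ, (∀ i, 0 ≤ w i) ∧ ∑ i, w i = 1 ∧ ∑ i, w i • a i = 0) ∨
      ∃ ξ : V → E3, ∀ i, 0 < ∑ v, ⟪ξ v, a i v⟫ := by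
  classical
  by_cases h : (0 : V → E3) ∈ (fun w : ι → ℝ => ∑ i, w i • a i) '' stdSimplex ℝ ι
  · left
    obtain ⟨w, ⟨hw0, hw1⟩, hw⟩ := h
    exact ⟨w, hw0, hw1, hw⟩
  right
  set L : (ι → ℝ) →ₗ[ℝ] (V → E3) := Fintype.linearCombination ℝ a with hL
  have hLa : ∀ w, L w = ∑ i, w i • a i := fun w => rfl
  have hK : (fun w : ι → ℝ => ∑ i, w i • a i) '' stdSimplex ℝ ι = L '' stdSimplex ℝ ι := rfl
  rw [hK] at h
  have hconv : Convex ℝ (L '' stdSimplex ℝ ι) := (convex_stdSimplex ℝ ι).linear_image L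
  have hcpt : IsCompact (L '' stdSimplex ℝ ι) :=
    (isCompact_stdSimplex ℝ ι).image (LinearMap.continuous_of_finiteDimensional L)
  obtain ⟨f, u, hu, hf⟩ := geometric_hahn_banach_point_closed hconv hcpt.isClosed h
  rw [map_zero] at hu
  refine ⟨fun v => (InnerProductSpace.toDual ℝ E3).symm
    (f.comp (ContinuousLinearMap.single ℝ (fun _ : V => E3) v)), ?_⟩
  intro i
  have h1 : L (Pi.single i 1) ∈ L '' stdSimplex ℝ ι :=
    ⟨_, single_mem_stdSimplex ℝ i, rfl⟩
  have h2 := hf _ h1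
  have h3 : L (Pi.single i 1) = a i := by
    rw [hLa]
    simp [Pi.single_apply, ite_smul]
  rw [h3] at h2
  have h4 : ∀ v, ⟪(InnerProductSpace.toDual ℝ E3).symm
      (f.comp (ContinuousLinearMap.single ℝ (fun _ : V => E3) v)), a i v⟫ =
      f (Pi.single v (a i v)) := by
    intro v
    rw [InnerProductSpace.toDual_symm_apply]
    rfl
  simp only [h4]
  rw [← map_sum, Finset.univ_sum_single]
  exact hu.trans h2

/-- Normalization. -/
noncomputable def nmz (z : E3) : E3 := ‖z‖⁻¹ • z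

theorem nmz_norm {z : E3} (hz : z ≠ 0) : ‖nmz z‖ = 1 := by
  rw [nmz, norm_smul, norm_inv, norm_norm, inv_mul_cancel₀ (norm_ne_zero_iff.2 hz)]

theorem nmz_of_unit {z : E3} (hz : ‖z‖ = 1) : nmz z = z := by
  rw [nmz, hz, inv_one, one_smul]

theorem norm_sq_curve {a x : E3} (ha : ‖a‖ = 1) (hx : ⟪a, x⟫ = 0) (t : ℝ) :
    ‖a + t • x‖ ^ 2 = 1 + t ^ 2 * ‖x‖ ^ 2 := by
  rw [norm_add_sq_real, real_inner_smul_right, hx, ha, norm_smul, mul_pow, Real.norm_eq_abs,
    sq_abs]
  ring

theorem one_le_norm {a x : E3} (ha : ‖a‖ = 1) (hx : ⟪a, x⟫ = 0) (t : ℝ) :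
    1 ≤ ‖a + t • x‖ := by
  have h := norm_sq_curve ha hx t
  have h1 : 0 ≤ t ^ 2 * ‖x‖ ^ 2 := by positivity
  have h2 := norm_nonneg (a + t • x)
  nlinarith

theorem norm_le {a x : E3} (ha : ‖a‖ = 1) (hx : ⟪a, x⟫ = 0) (t : ℝ) :
    ‖a + t • x‖ ≤ 1 + t ^ 2 * ‖x‖ ^ 2 := by
  have h := norm_sq_curve ha hx t
  have h1 := one_le_norm ha hx t
  rw [← h]
  nlinarith

theorem curve_ne {a x : E3} (ha : ‖a‖ = 1) (hx : ⟪a, x⟫ = 0) (t : ℝ) : a + t • x ≠ 0 := by
  intro h
  have := one_le_norm ha hx t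
  rw [h, norm_zero] at this
  linarith

theorem incr {a b x y : E3} (ha : ‖a‖ = 1) (hb : ‖b‖ = 1) (hx : ⟪a, x⟫ = 0) (hy : ⟪b, y⟫ = 0)
    (hD : 0 < ⟪a, y⟫ + ⟪x, b⟫) :
    ∀ᶠ t in 𝓝[>] (0 : ℝ), ⟪a, b⟫ < ⟪nmz (a + t • x), nmz (b + t • y)⟫ := by
  set D := ⟪a, y⟫ + ⟪x, b⟫ with hDdef
  set c := ‖x‖ ^ 2 with hc
  set e := ‖y‖ ^ 2 with he
  set E := ⟪x, y⟫ with hE
  set K := c + e + c * e + |E| with hK
  have hc0 : 0 ≤ c := by positivity
  have he0 : 0 ≤ e := by positivity
  have hK0 : 0 ≤ K := by positivity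
  have hpos : 0 < min 1 (D / (K + 1)) := lt_min one_pos (by positivity)
  filter_upwards [Ioo_mem_nhdsGT hpos] with t ht
  have ht0 : 0 < t := ht.1
  have ht1 : t < 1 := ht.2.trans_le (min_le_left _ _)
  have htK : t * (K + 1) < D := by
    have := ht.2.trans_le (min_le_right _ _)
    rwa [lt_div_iff₀ (by positivity)] at this
  have hN1 := one_le_norm ha hx t
  have hM1 := one_le_norm hb hy t
  have hN2 := norm_le ha hx t
  have hM2 := norm_le hb hy t
  set N := ‖a + t • x‖ with hN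
  set M := ‖b + t • y‖ with hM
  have hg : ⟪a + t • x, b + t • y⟫ = ⟪a, b⟫ + t * D + t ^ 2 * E := by
    rw [inner_add_left, inner_add_right, inner_add_right, real_inner_smul_left,
      real_inner_smul_left, real_inner_smul_right, real_inner_smul_right, hDdef, hE]
    ring
  have hin : ⟪nmz (a + t • x), nmz (b + t • y)⟫ = (⟪a, b⟫ + t * D + t ^ 2 * E) / (N * M) := by
    rw [nmz, nmz, real_inner_smul_left, real_inner_smul_right, hg, ← hN, ← hM]
    have hN0 : N ≠ 0 := by linarith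
    have hM0 : M ≠ 0 := by linarith
    field_simp
  rw [hin, lt_div_iff₀ (by positivity)]
  have hg1 : |⟪a, b⟫| ≤ 1 := by
    have := abs_real_inner_le_norm a b
    rwa [ha, hb, mul_one] at this
  have hNM1 : 1 ≤ N * M := by nlinarith
  have hNM2 : N * M ≤ (1 + t ^ 2 * c) * (1 + t ^ 2 * e) :=
    mul_le_mul hN2 hM2 (by linarith) (by positivity)
  have h1 : ⟪a, b⟫ * (N * M - 1) ≤ N * M - 1 := by
    have h2 : ⟪a, b⟫ ≤ 1 := (le_abs_self _).trans hg1
    nlinarith
  have h3 : (1 + t ^ 2 * c) * (1 + t ^ 2 * e) - 1 ≤ t ^ 2 * (c + e + c * e) := by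
    have h4 : t ^ 2 ≤ 1 := by nlinarith
    have h5 : 0 ≤ c * e * t ^ 2 := by positivity
    nlinarith
  have h6 : - |E| ≤ E := neg_abs_le E
  have h7 : 0 ≤ t ^ 2 * (E + |E|) := mul_nonneg (by positivity) (by linarith)
  have h8 : t ^ 2 * K < t * D := by
    have h9 : t * (t * K) < t * D := mul_lt_mul_of_pos_left (by nlinarith) ht0
    nlinarith
  have h10 : t ^ 2 * K = t ^ 2 * (c + e + c * e) + t ^ 2 * |E| := by rw [hK]; ring
  nlinarith

theorem tends {a x : E3} (ha : ‖a‖ = 1) {ε : ℝ} (hε : 0 < ε) :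
    ∀ᶠ t in 𝓝[>] (0 : ℝ), dist (nmz (a + t • x)) a < ε := by
  have h1 : ContinuousAt (fun t : ℝ => nmz (a + t • x)) 0 := by
    have h0 : ContinuousAt (fun t : ℝ => a + t • x) 0 := by fun_prop
    have h00 : ContinuousAt (fun t : ℝ => ‖a + t • x‖⁻¹) 0 := by
      refine ContinuousAt.inv₀ h0.norm ?_
      rw [zero_smul, add_zero, ha]
      exact one_ne_zero
    exact h00.smul h0
  have h2 : nmz (a + (0 : ℝ) • x) = a := by rw [zero_smul, add_zero, nmz_of_unit ha]
  have h3 := h1.tendsto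
  rw [h2] at h3
  have h4 := (Metric.tendsto_nhds.1 h3) ε hε
  exact h4.filter_mono nhdsWithin_le_nhds

theorem inner_mem {a b : E3} (ha : ‖a‖ = 1) (hb : ‖b‖ = 1) : ⟪a, b⟫ ∈ Set.Icc (-1 : ℝ) 1 := by
  have := abs_real_inner_le_norm a b
  rw [ha, hb, mul_one, abs_le] at this
  exact this

end H97

open H97 Filter in
theorem st_FARKAS (hopen : ST_OPEN) : ST_FARKAS := by
  intro V _ _ M p hp A hA
  classical
  obtain ⟨hC, ε, hε, hmin⟩ := hp
  obtain ⟨δ, hδ, hop⟩ := hopen V M p hC
  obtain ⟨d0, hd0⟩ := hA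
  let D := {d : M.G.Dart // d.fst ∉ A ∨ d.snd ∉ A}
  have : Nonempty D := ⟨⟨d0, Or.inl hd0⟩⟩
  let a : D → V → E3 := fun d v => if v ∈ A then 0 else
    (if v = d.1.fst then crs (p d.1.fst) (p d.1.snd) else 0) -
      (if v = d.1.snd then crs (p d.1.fst) (p d.1.snd) else 0)
  rcases gordan a with ⟨w, hw0, hw1, hw⟩ | ⟨ξ, hξ⟩
  · have hwa : ∀ v, ∑ d, w d • a d v = 0 := by
      intro v
      have h1 := congrFun hw v
      rw [Finset.sum_apply] at h1
      exact h1
    let wt : M.G.Dart → ℝ := fun d => if h : d.fst ∉ A ∨ d.snd ∉ A then w ⟨d, h⟩ else 0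
    have hwt0 : ∀ d, 0 ≤ wt d := by
      intro d
      change 0 ≤ if h : d.fst ∉ A ∨ d.snd ∉ A then w ⟨d, h⟩ else 0
      split_ifs
      · exact hw0 _
      · exact le_rfl
    have hsum : ∀ {W : Type} [AddCommMonoid W] (F : M.G.Dart → W),
        (∀ d, ¬ (d.fst ∉ A ∨ d.snd ∉ A) → F d = 0) → ∑ d : D, F d.1 = ∑ d, F d := by
      intro W _ F hF
      rw [Finset.sum_subtype (Finset.univ.filter fun d : M.G.Dart => d.fst ∉ A ∨ d.snd ∉ A)
        (p := fun d : M.G.Dart => d.fst ∉ A ∨ d.snd ∉ A) (by simp) F |>.symm]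
      rw [Finset.sum_filter]
      refine Finset.sum_congr rfl fun d _ => ?_
      split_ifs with h
      · rfl
      · exact (hF d h).symm
    refine ⟨fun d => wt d + wt d.symm, fun d => add_nonneg (hwt0 _) (hwt0 _), ?_, ?_, ?_, ?_⟩
    · intro d
      change wt d.symm + wt d.symm.symm = wt d + wt d.symm
      rw [SimpleGraph.Dart.symm_symm, add_comm]
    · intro d h1 h2
      have e1 : wt d = 0 := dif_neg (by push Not; exact ⟨h1, h2⟩)
      have e2 : wt d.symm = 0 := dif_neg (by push Not; exact ⟨h2, h1⟩)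
      change wt d + wt d.symm = 0
      rw [e1, e2, add_zero]
    · by_contra hno
      push Not at hno
      have h1 : ∀ d, wt d = 0 := by
        intro d
        have := hno d
        have := hwt0 d
        have := hwt0 d.symm
        linarith
      have h2 : ∑ d : D, w d = 0 := by
        refine Finset.sum_eq_zero fun d _ => ?_
        have h3 := h1 d.1
        change (if h : d.1.fst ∉ A ∨ d.1.snd ∉ A then w ⟨d.1, h⟩ else 0) = 0 at h3
        rwa [dif_pos d.2] at h3
      rw [h2] at hw1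
      exact zero_ne_one hw1
    · intro v hv
      have h1 := hwa v
      have h2 : ∑ d : D, w d • a d v = ∑ d : M.G.Dart, wt d •
          ((if v = d.fst then crs (p d.fst) (p d.snd) else 0) -
            (if v = d.snd then crs (p d.fst) (p d.snd) else 0)) := by
        rw [← hsum]
        · refine Finset.sum_congr rfl fun d _ => ?_
          have h3 : wt d.1 = w d := dif_pos d.2
          rw [h3]
          congr 1
          exact if_neg hv
        · intro d hd
          have h3 : wt d = 0 := dif_neg hd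
          rw [h3, zero_smul]
      rw [h2] at h1
      simp only [smul_sub] at h1
      rw [Finset.sum_sub_distrib] at h1
      have h4 : ∑ d : M.G.Dart, wt d • (if v = d.snd then crs (p d.fst) (p d.snd) else 0) =
          ∑ d : M.G.Dart, wt d.symm • (if v = d.fst then - crs (p d.fst) (p d.snd) else 0) := by
        refine (Equiv.sum_comp (Function.Involutive.toPerm _
          SimpleGraph.Dart.symm_involutive) _).symm.trans ?_
        refine Finset.sum_congr rfl fun d _ => ?_
        change wt d.symm • (if v = d.symm.snd then crs (p d.symm.fst) (p d.symm.snd) else 0) = _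
        have h5 : crs (p d.snd) (p d.fst) = - crs (p d.fst) (p d.snd) := by
          ext i
          fin_cases i <;> simp [crs] <;> ring
        change wt d.symm • (if v = d.fst then crs (p d.snd) (p d.fst) else 0) = _
        rw [h5]
      rw [h4, ← Finset.sum_sub_distrib] at h1
      rw [Finset.sum_filter]
      refine Eq.trans ?_ h1
      refine Finset.sum_congr rfl fun d _ => ?_
      by_cases h : d.fst = v
      · rw [if_pos h, if_pos h.symm, if_pos h.symm, add_smul, smul_neg, sub_neg_eq_add]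
      · rw [if_neg h, if_neg (Ne.symm h), if_neg (Ne.symm h), smul_zero, smul_zero, sub_zero]
  · exfalso
    let ξ' : V → E3 := fun v => if v ∈ A then 0 else ξ v
    let η : V → E3 := fun v => crs (ξ' v) (p v)
    have hη : ∀ v, ⟪p v, η v⟫ = 0 := by
      intro v
      change ⟪p v, crs (ξ' v) (p v)⟫ = 0
      rw [real_inner_comm, crs_inner]
      simp only [det3]; ring
    have hD : ∀ d : D, 0 < ⟪p d.1.fst, η d.1.snd⟫ + ⟪η d.1.fst, p d.1.snd⟫ := by
      intro d
      have h1 := hξ d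
      have h2 : ∀ v, ⟪ξ v, a d v⟫ = (if v = d.1.fst then ⟪ξ' v, crs (p d.1.fst) (p d.1.snd)⟫ else 0)
          - (if v = d.1.snd then ⟪ξ' v, crs (p d.1.fst) (p d.1.snd)⟫ else 0) := by
        intro v
        change ⟪ξ v, if v ∈ A then 0 else _⟫ = (if v = d.1.fst then ⟪(if v ∈ A then 0 else ξ v), _⟫ else 0)
          - (if v = d.1.snd then ⟪(if v ∈ A then 0 else ξ v), _⟫ else 0)
        by_cases hvA : v ∈ A
        · simp [hvA]
        · rw [if_neg hvA, if_neg hvA, inner_sub_right]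
          congr 1
          · by_cases h : v = d.1.fst
            · rw [if_pos h, if_pos h]
            · rw [if_neg h, if_neg h, inner_zero_right]
          · by_cases h : v = d.1.snd
            · rw [if_pos h, if_pos h]
            · rw [if_neg h, if_neg h, inner_zero_right]
      simp only [h2] at h1
      rw [Finset.sum_sub_distrib, Finset.sum_ite_eq' , Finset.sum_ite_eq'] at h1
      simp only [Finset.mem_univ, if_true] at h1
      have h3 : ⟪p d.1.fst, η d.1.snd⟫ = - ⟪ξ' d.1.snd, crs (p d.1.fst) (p d.1.snd)⟫ := by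
        change ⟪p d.1.fst, crs (ξ' d.1.snd) (p d.1.snd)⟫ = _
        rw [real_inner_comm, crs_inner, real_inner_comm, crs_inner]
        simp only [det3]; ring
      have h4 : ⟪η d.1.fst, p d.1.snd⟫ = ⟪ξ' d.1.fst, crs (p d.1.fst) (p d.1.snd)⟫ := by
        change ⟪crs (ξ' d.1.fst) (p d.1.fst), p d.1.snd⟫ = _
        rw [crs_inner, real_inner_comm, crs_inner]
        simp only [det3]; ring
      rw [h3, h4]
      linarith
    have hev : ∀ᶠ t in 𝓝[>] (0 : ℝ), (∀ d : D, ⟪p d.1.fst, p d.1.snd⟫ <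
        ⟪nmz (p d.1.fst + t • η d.1.fst), nmz (p d.1.snd + t • η d.1.snd)⟫) ∧
        (∀ v, dist (nmz (p v + t • η v)) (p v) < δ) ∧
        (∀ v, dist (nmz (p v + t • η v)) (p v) < ε) := by
      refine (eventually_all.2 fun d => ?_).and
        ((eventually_all.2 fun v => tends (hC.unit v) hδ).and
          (eventually_all.2 fun v => tends (hC.unit v) hε))
      exact incr (hC.unit _) (hC.unit _) (hη _) (hη _) (hD d)
    obtain ⟨t, h1, h2, h3⟩ := hev.exists
    let q : V → E3 := fun v => nmz (p v + t • η v)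
    have hqu : ∀ v, ‖q v‖ = 1 := fun v => nmz_norm (curve_ne (hC.unit v) (hη v) t)
    have hqC : M.InC q := hop q hqu h2
    have hqA : ∀ v ∈ A, q v = p v := by
      intro v hv
      change nmz (p v + t • crs (if v ∈ A then 0 else ξ v) (p v)) = p v
      rw [if_pos hv]
      have h0 : crs 0 (p v) = 0 := by
        ext i
        fin_cases i <;> simp [crs]
      rw [h0, smul_zero, add_zero, nmz_of_unit (hC.unit v)]
    have hlt : ∀ d : D, ang (q d.1.fst) (q d.1.snd) < ang (p d.1.fst) (p d.1.snd) := fun d =>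
      Real.strictAntiOn_arccos (inner_mem (hC.unit _) (hC.unit _)) (inner_mem (hqu _) (hqu _))
        (h1 d)
    have hLe : M.Le q p := by
      intro d
      by_cases hd : d.fst ∉ A ∨ d.snd ∉ A
      · exact (hlt ⟨d, hd⟩).le
      · push Not at hd
        rw [hqA _ hd.1, hqA _ hd.2]
    have h4 := hmin q hqC h3 hLe d0
    have h5 := hlt ⟨d0, Or.inl hd0⟩
    exact absurd h4 h5.ne

end Pool.Agent.Helper30.N9
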