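import Pool.Agent.Helper93.N9.Gap1
import Pool.Agent.Helper30.N9.Cx5

/-! MP_9b91d1_co, row NOM1 of Deg2 (helper97). -/

open scoped RealInnerProductSpace Topology

namespace Pool.Agent.Helper30.N9

namespace H97

section
variable {V : Type} [Fintype V] [DecidableEq V] {M : PlaneGraph V}

theorem mem_arc_self_right {a b : E3} (hb : ‖b‖ = 1) : b ∈ arc a b :=
  ⟨hb, 0, 1, le_rfl, zero_le_one, by simp⟩

/-- Two darts with the same start and the same direction are equal. -/
theorem dir_eq {q : V → E3} (hq : M.InC q) {d e : M.G.Dart} (h : d.fst = e.fst) {c : ℝ}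
    (hc : 0 < c) (hcr : crs (q d.fst) (q d.snd) = c • crs (q e.fst) (q e.snd)) : d = e := by
  by_contra hde
  have hne : d.snd ≠ e.snd := by
    intro h'
    apply hde
    exact SimpleGraph.Dart.ext _ _ (Prod.ext h h')
  have hedge : d.edge ≠ e.edge := by
    intro h'
    rw [SimpleGraph.dart_edge_eq_iff] at h'
    rcases h' with h' | h'
    · exact hde h'
    · apply e.fst_ne_snd
      rw [← h, h']
      rfl
  have hP : q d.fst ≠ 0 := by
    intro h0
    have := hq.unit d.fst
    rw [h0, norm_zero] at this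
    exact zero_ne_one this
  have h1 : crs (q d.fst) (q d.snd - c • q e.snd) = 0 := by
    have h2 := crs_add_right (q d.fst) (q d.snd - c • q e.snd) (c • q e.snd)
    rw [sub_add_cancel, crs_smul_right, hcr, h] at h2
    rw [h]
    have h3 := h2.symm
    rw [add_eq_right] at h3
    exact h3
  have h2 := crs_zero_par hP h1
  set lam := ⟪q d.fst, q d.snd - c • q e.snd⟫ / ⟪q d.fst, q d.fst⟫ with hlam
  have h3 : q d.snd = lam • q d.fst + c • q e.snd := by
    rw [← h2]; abel
  rcases le_or_gt 0 lam with hl | hl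
  · have hm : q d.snd ∈ arc (q e.fst) (q e.snd) :=
      ⟨hq.unit _, lam, c, hl, hc.le, by rw [← h]; exact h3⟩
    obtain ⟨v, hv1, hv2, hv3⟩ := hq.embed d e hedge _ (mem_arc_self_right (hq.unit _)) hm
    have hv : d.snd = v := hq.inj hv3
    rcases PlaneGraph.mem_edge hv2 with h' | h'
    · exact d.snd_ne_fst (by rw [hv, h', h])
    · exact hne (by rw [hv, h'])
  · have h4 : q e.snd = (- lam / c) • q d.fst + (1 / c) • q d.snd := by
      rw [h3, smul_add, smul_smul, smul_smul, ← add_assoc, ← add_smul]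
      have e1 : - lam / c + 1 / c * lam = 0 := by ring
      have e2 : 1 / c * c = 1 := by field_simp
      rw [e1, e2, zero_smul, zero_add, one_smul]
    have hm : q e.snd ∈ arc (q d.fst) (q d.snd) :=
      ⟨hq.unit _, _, _, (div_pos (neg_pos.2 hl) hc).le, (div_pos one_pos hc).le, h4⟩
    obtain ⟨v, hv1, hv2, hv3⟩ := hq.embed d e hedge _ hm (mem_arc_self_right (hq.unit _))
    have hv : e.snd = v := hq.inj hv3
    rcases PlaneGraph.mem_edge hv1 with h' | h'
    · exact e.snd_ne_fst (by rw [hv, h', h])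
    · exact hne (by rw [hv, h'])

/-- If no dart at v separates two labels, all faces at v have the same label. -/
theorem label_const {L : Type} {l : M.Face → L} {v : V} (hv : ¬ M.OnE l v) {d e : M.G.Dart}
    (hd : d.fst = v) (he : e.fst = v) : l (M.fc e) = l (M.fc d) := by
  have hstep : ∀ d : M.G.Dart, d.fst = v → l (M.fc (M.rot d)) = l (M.fc d) := by
    intro d hd
    rw [M.rot_eq, M.fc_nxt]
    by_contra hcon
    exact hv ⟨d, hd, fun h => hcon h.symm⟩
  have hfst : ∀ d : M.G.Dart, (M.rot d).fst = d.fst := by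
    intro d
    rw [M.rot_eq, M.nxt_fst]
    rfl
  have hall : ∀ i : ℕ, ((M.rot ^ i) d).fst = v ∧ l (M.fc ((M.rot ^ i) d)) = l (M.fc d) := by
    intro i
    induction i with
    | zero => exact ⟨by simpa using hd, by simp⟩
    | succ i ih =>
      rw [pow_succ', Equiv.Perm.mul_apply, hfst]
      exact ⟨ih.1, (hstep _ ih.1).trans ih.2⟩
  obtain ⟨i, hi⟩ := (M.trans d e (hd.trans he.symm)).exists_nat_pow_eq
  have := (hall i).2
  rw [hi] at this
  exact this

/-- A meridional dart at a vertex of a meridian is on the meridian. -/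
theorem merid_E0 {L : Type} {l : M.Face → L} {p : V → E3} {a : E3} {s t : V} (hC : M.InC p)
    (hf : M.Fan p a l s t) {e d : M.G.Dart} (he : M.E0 l e) (hs : e.fst ≠ s) (ht : e.fst ≠ t)
    (hd : d.fst = e.fst) (hm : det3 a (p d.fst) (p d.snd) = 0) : M.E0 l d := by
  obtain ⟨e1, h1, h2, c1, hc1, h3⟩ := hf.up e he hs ht
  obtain ⟨e2, g1, g2, c2, hc2, g3⟩ := hf.dn e he hs ht
  have hv1 : p d.fst ≠ a := fun h => hs (by rw [← hd]; exact hC.inj (h.trans hf.ps.symm))
  have hv2 : p d.fst ≠ -a := fun h => ht (by rw [← hd]; exact hC.inj (h.trans hf.pt.symm))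
  have hn : crs (p d.fst) a ≠ 0 := crs_ne_zero (hC.unit _) hf.ua hv1 hv2
  have k1 : ⟪p d.fst, crs (p d.fst) (p d.snd)⟫ = 0 := by
    rw [real_inner_comm, crs_inner]; simp only [det3]; ring
  have k2 : ⟪a, crs (p d.fst) (p d.snd)⟫ = 0 := by
    rw [real_inner_comm, crs_inner, ← hm]; simp only [det3]; ring
  have k3 := par_of_crs hn k1 k2
  set α := ⟪crs (p d.fst) a, crs (p d.fst) (p d.snd)⟫ / ⟪crs (p d.fst) a, crs (p d.fst) a⟫
  have hne : crs (p d.fst) (p d.snd) ≠ 0 :=
    crs_ne_zero (hC.unit _) (hC.unit _) (hC.q_ne d) (hC.ne_neg d)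
  have hα : α ≠ 0 := by
    intro h
    rw [h, zero_smul] at k3
    exact hne k3
  rcases lt_or_gt_of_ne hα with hα | hα
  · have h4 : crs (p d.fst) (p d.snd) = (-α / c2) • crs (p e2.fst) (p e2.snd) := by
      rw [g3, smul_smul, k3, g2, ← hd, crs_swap (p d.fst) a, smul_neg, ← neg_smul]
      congr 1
      field_simp
    rw [dir_eq hC (hd.trans g2.symm) (div_pos (neg_pos.2 hα) hc2) h4]
    exact g1
  · have h4 : crs (p d.fst) (p d.snd) = (α / c1) • crs (p e1.fst) (p e1.snd) := by
      rw [h3, smul_smul, k3, h2, ← hd]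
      congr 1
      field_simp
    rw [dir_eq hC (hd.trans h2.symm) (div_pos hα hc1) h4]
    exact h1

theorem zero_of_self_neg {x : E3} (h : x = -x) : x = 0 := by
  have h1 : (2 : ℝ) • x = 0 := by
    rw [two_smul]
    nth_rewrite 2 [h]
    exact add_neg_cancel x
  exact (smul_eq_zero.1 h1).resolve_left two_ne_zero

/-- The sum of the moments of a symmetric weight is zero. -/
theorem total_zero {p : V → E3} {om : M.G.Dart → ℝ} (hw : ∀ d, om d.symm = om d) :
    ∑ v, ∑ d ∈ Finset.univ.filter (fun d : M.G.Dart => d.fst = v),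
      om d • crs (p d.fst) (p d.snd) = 0 := by
  rw [Finset.sum_fiberwise_of_maps_to (s := (Finset.univ : Finset M.G.Dart))
    (t := (Finset.univ : Finset V)) (g := fun d : M.G.Dart => d.fst)
    (fun _ _ => Finset.mem_univ _) (fun d => om d • crs (p d.fst) (p d.snd))]
  have h1 : ∑ d : M.G.Dart, om d • crs (p d.fst) (p d.snd) =
      ∑ d : M.G.Dart, om d.symm • crs (p d.symm.fst) (p d.symm.snd) :=
    (Equiv.sum_comp (Function.Involutive.toPerm _ SimpleGraph.Dart.symm_involutive)
      (fun d : M.G.Dart => om d • crs (p d.fst) (p d.snd))).symm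
  have h2 : ∑ d : M.G.Dart, om d.symm • crs (p d.symm.fst) (p d.symm.snd) =
      - ∑ d : M.G.Dart, om d • crs (p d.fst) (p d.snd) := by
    rw [← Finset.sum_neg_distrib]
    refine Finset.sum_congr rfl fun d _ => ?_
    rw [hw]
    change om d • crs (p d.snd) (p d.fst) = _
    rw [crs_swap, smul_neg]
  rw [h2] at h1
  exact zero_of_self_neg h1

/-- Cramer's rule, projected along a. -/
theorem cramer_axis (a w r r' : E3) :
    det3 a r r' • crs a w = det3 a w r' • crs a r + det3 a r w • crs a r' := by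
  ext i
  fin_cases i <;> simp [crs, det3] <;> ring

end

end H97

open H97 H93 in
theorem st_NOM1 : ST_NOM1 := by
  intro V _ _ M L p h a l s t k th r lam om hS hf hL hW hEq hE0 hgap hmax i hi om' hW' hin hEq'
    hmer
  classical
  have hC := hS.inc
  have ha := hf.ua
  have hst : s ≠ t := by
    intro h'
    have h1 := hf.ps
    rw [h', hf.pt] at h1
    have h2 : a = 0 := zero_of_self_neg h1.symm
    rw [h2, norm_zero] at ha
    exact zero_ne_one ha
  have hrk : r k = r 0 := by
    rw [hL.rr k le_rfl, hL.thk]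
    simp
  have hr1 : ∀ j ≤ k, ‖r j‖ = 1 := by
    intro j hj
    rw [norm_one_iff, FanL.inner_rr ha hL hj hj, sub_self, Real.cos_zero]
  have har : ∀ j ≤ k, ⟪a, r j⟫ = 0 := by
    intro j hj
    rw [hL.rr j hj, inner_add_right, real_inner_smul_right, real_inner_smul_right, hL.ar0]
    have : ⟪a, crs a (r 0)⟫ = 0 := by
      rw [real_inner_comm, crs_inner]; simp only [det3]; ring
    rw [this]; ring
  -- the stress off meridian j
  let W : ℕ → M.G.Dart → ℝ := fun j d =>
    if OnR a (r j) (p d.fst) ∧ OnR a (r j) (p d.snd) then 0 else om d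
  have hWW : ∀ j, M.Wt (W j) := by
    intro j
    refine ⟨fun d => ?_, fun d => ?_⟩
    · change 0 ≤ if OnR a (r j) (p d.fst) ∧ OnR a (r j) (p d.snd) then 0 else om d
      split_ifs
      · exact le_rfl
      · exact hW.nonneg d
    · change (if OnR a (r j) (p d.snd) ∧ OnR a (r j) (p d.fst) then 0 else om d.symm) =
        if OnR a (r j) (p d.fst) ∧ OnR a (r j) (p d.snd) then 0 else om d
      rw [hW.symm]
      by_cases h1 : OnR a (r j) (p d.fst) ∧ OnR a (r j) (p d.snd)
      · rw [if_pos h1, if_pos h1.symm]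
      · rw [if_neg h1, if_neg fun h' => h1 h'.symm]
  -- unique meridian through a point off the axis
  have huni : ∀ j ≤ k, ∀ j' ≤ k, ∀ v, v ≠ s → v ≠ t → OnR a (r j) (p v) → OnR a (r j') (p v) →
      r j = r j' := by
    rintro j hj j' hj' v hvs hvt ⟨c, hc, h1⟩ ⟨c', hc', h2⟩
    have h3 : c • r j = c' • r j' := add_right_cancel (h1.symm.trans h2)
    have h4 : c = c' := by
      have := congrArg norm h3
      rw [norm_smul, norm_smul, hr1 j hj, hr1 j' hj', mul_one, mul_one, Real.norm_of_nonneg hc,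
        Real.norm_of_nonneg hc'] at this
      exact this
    have h5 : c ≠ 0 := by
      intro h0
      rw [h0, zero_smul, zero_add] at h1
      have h6 := hC.unit v
      rw [h1, norm_smul, ha, mul_one, Real.norm_eq_abs] at h6
      rcases eq_or_eq_neg_of_abs_eq h6 with h7 | h7
      · rw [h7, one_smul] at h1
        exact hvs (hC.inj (h1.trans hf.ps.symm))
      · rw [h7, neg_one_smul] at h1
        exact hvt (hC.inj (h1.trans hf.pt.symm))
    rw [← h4] at h3
    exact smul_right_injective E3 h5 h3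
  have hray : ∀ d, om d ≠ 0 → ∃ j ≤ k, OnR a (r j) (p d.fst) ∧ OnR a (r j) (p d.snd) := by
    intro d hd
    obtain ⟨j, hj, h1, h2, _⟩ := hL.ray d ((hE0 d).2 hd)
    exact ⟨j + 1, hj, h1, h2⟩
  have hWv : ∀ j ≤ k, ∀ v, v ≠ s → v ≠ t → M.EqAt p (W j) v := by
    intro j hj v hvs hvt
    by_cases hv : OnR a (r j) (p v)
    · refine Finset.sum_eq_zero fun d hd => ?_
      have hdv : d.fst = v := (Finset.mem_filter.1 hd).2
      have h1 : W j d = 0 := by
        change (if OnR a (r j) (p d.fst) ∧ OnR a (r j) (p d.snd) then 0 else om d) = 0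
        by_cases h2 : OnR a (r j) (p d.fst) ∧ OnR a (r j) (p d.snd)
        · rw [if_pos h2]
        · rw [if_neg h2]
          by_contra h3
          obtain ⟨j', hj', h4, h5⟩ := hray d h3
          have h6 : r j = r j' := huni j hj j' hj' v hvs hvt hv (hdv ▸ h4)
          rw [← h6] at h4 h5
          exact h2 ⟨h4, h5⟩
      rw [h1, zero_smul]
    · have h1 := hEq v
      unfold PlaneGraph.EqAt at h1 ⊢
      refine (Finset.sum_congr rfl fun d hd => ?_).trans h1
      have hdv : d.fst = v := (Finset.mem_filter.1 hd).2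
      have h2 : W j d = om d := by
        change (if OnR a (r j) (p d.fst) ∧ OnR a (r j) (p d.snd) then 0 else om d) = om d
        rw [if_neg]
        rw [hdv]
        exact fun h' => hv h'.1
      rw [h2]
  -- the moment of W j at s
  have hWs : ∀ j ≤ k, ∃ g : ℝ, 0 < g ∧
      ∑ d ∈ Finset.univ.filter (fun d : M.G.Dart => d.fst = s),
        W j d • crs (p d.fst) (p d.snd) = - (g • crs a (r j)) := by
    intro j hj
    have hterm : ∀ d : M.G.Dart, d.fst = s → OnR a (r j) (p d.snd) →
        0 ≤ ⟪r j, p d.snd⟫ ∧ crs (p d.fst) (p d.snd) = ⟪r j, p d.snd⟫ • crs a (r j) := by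
      rintro d hd ⟨c, hc, h1⟩
      have h2 : ⟪r j, p d.snd⟫ = c := by
        rw [h1, inner_add_right, real_inner_smul_right, real_inner_smul_right,
          inner_self_one (hr1 j hj), real_inner_comm a (r j), har j hj]
        ring
      rw [h2]
      refine ⟨hc, ?_⟩
      conv_lhs => rw [h1]
      rw [hd, hf.ps, crs_add_right, crs_smul_right, crs_smul_right, crs_self, smul_zero, add_zero]
    let g : ℝ := ∑ d ∈ Finset.univ.filter (fun d : M.G.Dart => d.fst = s),
      if OnR a (r j) (p d.snd) then om d * ⟪r j, p d.snd⟫ else 0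
    have hgn : ∀ d ∈ Finset.univ.filter (fun d : M.G.Dart => d.fst = s),
        0 ≤ if OnR a (r j) (p d.snd) then om d * ⟪r j, p d.snd⟫ else 0 := by
      intro d hd
      have hds : d.fst = s := (Finset.mem_filter.1 hd).2
      split_ifs with h1
      · exact mul_nonneg (hW.nonneg d) (hterm d hds h1).1
      · exact le_rfl
    have hg : 0 < g := by
      obtain ⟨j', hj', hjj⟩ : ∃ j' < k, r j = r (j' + 1) := by
        have hk2 := FanL.two_le hL
        rcases Nat.eq_zero_or_pos j with h0 | h0
        · exact ⟨k - 1, by omega, by rw [h0, Nat.sub_add_cancel (by omega), hrk]⟩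
        · exact ⟨j - 1, by omega, by rw [Nat.sub_add_cancel h0]⟩
      obtain ⟨d, hds, h1, h2, h3⟩ := hL.top j' hj'
      rw [← hjj] at h1
      have hmem : d ∈ Finset.univ.filter (fun d : M.G.Dart => d.fst = s) :=
        Finset.mem_filter.2 ⟨Finset.mem_univ _, hds⟩
      refine lt_of_lt_of_le ?_ (Finset.single_le_sum hgn hmem)
      rw [if_pos h1]
      have hE : M.E0 l d := by
        unfold PlaneGraph.E0
        rw [h2, h3]
        exact FanL.lam_ne hL hj'
      have hom : 0 < om d := lt_of_le_of_ne (hW.nonneg d) (Ne.symm ((hE0 d).1 hE))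
      refine mul_pos hom (lt_of_le_of_ne (hterm d hds h1).1 fun h0 => ?_)
      have h4 := (hterm d hds h1).2
      rw [← h0, zero_smul] at h4
      exact crs_ne_zero (hC.unit _) (hC.unit _) (hC.q_ne d) (hC.ne_neg d) h4
    refine ⟨g, hg, ?_⟩
    have h1 := hEq s
    unfold PlaneGraph.EqAt at h1
    have h2 : ∑ d ∈ Finset.univ.filter (fun d : M.G.Dart => d.fst = s),
        om d • crs (p d.fst) (p d.snd) =
        ∑ d ∈ Finset.univ.filter (fun d : M.G.Dart => d.fst = s),
          W j d • crs (p d.fst) (p d.snd) + g • crs a (r j) := by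
      change _ = _ + (∑ d ∈ Finset.univ.filter (fun d : M.G.Dart => d.fst = s),
        if OnR a (r j) (p d.snd) then om d * ⟪r j, p d.snd⟫ else 0) • crs a (r j)
      rw [Finset.sum_smul, ← Finset.sum_add_distrib]
      refine Finset.sum_congr rfl fun d hd => ?_
      have hds : d.fst = s := (Finset.mem_filter.1 hd).2
      have hOs : OnR a (r j) (p d.fst) := by
        refine ⟨0, le_rfl, ?_⟩
        rw [hds, hf.ps, inner_self_one ha, zero_smul, zero_add, one_smul]
      change _ = (if OnR a (r j) (p d.fst) ∧ OnR a (r j) (p d.snd) then 0 else om d) •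
        crs (p d.fst) (p d.snd) + _
      by_cases h3 : OnR a (r j) (p d.snd)
      · rw [if_pos ⟨hOs, h3⟩, if_pos h3, zero_smul, zero_add, (hterm d hds h3).2, smul_smul]
      · rw [if_neg fun h' => h3 h'.2, if_neg h3, zero_smul, add_zero]
    rw [h2] at h1
    exact eq_neg_of_add_eq_zero_left h1
  -- equilibrium of om' off s, t
  have hEq2 : ∀ v, v ≠ s → v ≠ t → M.EqAt p om' v := by
    intro v hvs hvt
    by_cases hOn : M.OnE l v
    · obtain ⟨e, hev, he⟩ := hOn
      refine Finset.sum_eq_zero fun d hd => ?_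
      have hdv : d.fst = v := (Finset.mem_filter.1 hd).2
      have h1 : om' d = 0 := by
        by_contra h2
        have h3 := merid_E0 hC hf he (by rw [hev]; exact hvs) (by rw [hev]; exact hvt)
          (hdv.trans hev.symm) (hmer d h2)
        obtain ⟨h4, h5⟩ := hin d h2
        exact h3 (h4.trans h5.symm)
      rw [h1, zero_smul]
    · by_cases hex : ∃ d : M.G.Dart, d.fst = v ∧ om' d ≠ 0
      · obtain ⟨d, hdv, hd⟩ := hex
        refine hEq' v fun e he => ?_
        change l (M.fc e) = lam i
        rw [label_const hOn hdv he]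
        exact (hin d hd).1
      · push Not at hex
        refine Finset.sum_eq_zero fun d hd => ?_
        rw [hex d (Finset.mem_filter.1 hd).2, zero_smul]
  -- the moment of om' at s
  have hD : 0 < det3 a (r i) (r (i + 1)) := by
    rw [FanL.det_rr ha hL hi.le hi]
    have h1 := hL.thl i hi
    have h2 := hgap i hi
    exact Real.sin_pos_of_pos_of_lt_pi (by linarith) (by linarith)
  obtain ⟨gi, hgi, hWi⟩ := hWs i hi.le
  obtain ⟨gj, hgj, hWj⟩ := hWs (i + 1) hi
  let A : ℝ := ∑ d ∈ Finset.univ.filter (fun d : M.G.Dart => d.fst = s),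
    om' d * det3 a (p d.snd) (r (i + 1))
  let B : ℝ := ∑ d ∈ Finset.univ.filter (fun d : M.G.Dart => d.fst = s),
    om' d * det3 a (r i) (p d.snd)
  have hlune : ∀ d, om' d ≠ 0 → 0 ≤ det3 a (r i) (p d.snd) ∧ 0 ≤ det3 a (p d.snd) (r (i + 1)) := by
    intro d hd
    have h1 := hL.lune i hi (M.nxt d) (by rw [M.fc_nxt]; exact (hin d hd).1)
    rw [M.nxt_fst] at h1
    exact h1
  have hA : 0 ≤ A := by
    refine Finset.sum_nonneg fun d _ => ?_
    by_cases h1 : om' d = 0
    · rw [h1, zero_mul]
    · exact mul_nonneg (hW'.nonneg d) (hlune d h1).2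
  have hB : 0 ≤ B := by
    refine Finset.sum_nonneg fun d _ => ?_
    by_cases h1 : om' d = 0
    · rw [h1, zero_mul]
    · exact mul_nonneg (hW'.nonneg d) (hlune d h1).1
  have hF : det3 a (r i) (r (i + 1)) •
      ∑ d ∈ Finset.univ.filter (fun d : M.G.Dart => d.fst = s), om' d • crs (p d.fst) (p d.snd) =
      A • crs a (r i) + B • crs a (r (i + 1)) := by
    change _ = (∑ d ∈ Finset.univ.filter (fun d : M.G.Dart => d.fst = s),
      om' d * det3 a (p d.snd) (r (i + 1))) • crs a (r i) +
      (∑ d ∈ Finset.univ.filter (fun d : M.G.Dart => d.fst = s),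
        om' d * det3 a (r i) (p d.snd)) • crs a (r (i + 1))
    rw [Finset.sum_smul, Finset.sum_smul, ← Finset.sum_add_distrib, Finset.smul_sum]
    refine Finset.sum_congr rfl fun d hd => ?_
    rw [(Finset.mem_filter.1 hd).2, hf.ps, smul_comm, cramer_axis, smul_add, smul_smul, smul_smul]
  -- the full stress
  let D : ℝ := det3 a (r i) (r (i + 1))
  let om2 : M.G.Dart → ℝ := fun d => D * om' d + A / gi * W i d + B / gj * W (i + 1) d
  have hexp : ∀ v, ∑ d ∈ Finset.univ.filter (fun d : M.G.Dart => d.fst = v),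
      om2 d • crs (p d.fst) (p d.snd) =
      D • ∑ d ∈ Finset.univ.filter (fun d : M.G.Dart => d.fst = v),
        om' d • crs (p d.fst) (p d.snd) +
      (A / gi) • ∑ d ∈ Finset.univ.filter (fun d : M.G.Dart => d.fst = v),
        W i d • crs (p d.fst) (p d.snd) +
      (B / gj) • ∑ d ∈ Finset.univ.filter (fun d : M.G.Dart => d.fst = v),
        W (i + 1) d • crs (p d.fst) (p d.snd) := by
    intro v
    rw [Finset.smul_sum, Finset.smul_sum, Finset.smul_sum, ← Finset.sum_add_distrib,
      ← Finset.sum_add_distrib]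
    refine Finset.sum_congr rfl fun d _ => ?_
    change (D * om' d + A / gi * W i d + B / gj * W (i + 1) d) • _ = _
    rw [add_smul, add_smul, smul_smul, smul_smul, smul_smul]
  have hW2 : M.Wt om2 := by
    refine ⟨fun d => ?_, fun d => ?_⟩
    · exact add_nonneg (add_nonneg (mul_nonneg hD.le (hW'.nonneg d))
        (mul_nonneg (div_nonneg hA hgi.le) ((hWW i).nonneg d)))
        (mul_nonneg (div_nonneg hB hgj.le) ((hWW (i + 1)).nonneg d))
    · change D * om' d.symm + A / gi * W i d.symm + B / gj * W (i + 1) d.symm =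
        D * om' d + A / gi * W i d + B / gj * W (i + 1) d
      rw [hW'.symm, (hWW i).symm, (hWW (i + 1)).symm]
  have hE2 : ∀ v, v ≠ t → M.EqAt p om2 v := by
    intro v hvt
    unfold PlaneGraph.EqAt
    rw [hexp]
    by_cases hvs : v = s
    · rw [hvs, hWi, hWj]
      change det3 a (r i) (r (i + 1)) • _ + _ + _ = (0 : E3)
      rw [hF, smul_neg, smul_neg, smul_smul, smul_smul, div_mul_cancel₀ _ hgi.ne',
        div_mul_cancel₀ _ hgj.ne']
      abel
    · have h1 := hEq2 v hvs hvt
      have h2 := hWv i hi.le v hvs hvt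
      have h3 := hWv (i + 1) hi v hvs hvt
      unfold PlaneGraph.EqAt at h1 h2 h3
      rw [h1, h2, h3, smul_zero, smul_zero, smul_zero, add_zero, add_zero]
  have hE3 : ∀ v, M.EqAt p om2 v := by
    intro v
    by_cases hvt : v = t
    · rw [hvt]
      have h1 := total_zero (M := M) (p := p) (om := om2) hW2.symm
      rw [Finset.sum_eq_single t] at h1
      · exact h1
      · intro u _ hu
        exact hE2 u hu
      · intro h'
        exact absurd (Finset.mem_univ t) h'
    · exact hE2 v hvt
  intro d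
  by_contra hd
  have h1 : 0 < om2 d := by
    have h2 : 0 < D * om' d := mul_pos hD (lt_of_le_of_ne (hW'.nonneg d) (Ne.symm hd))
    exact add_pos_of_pos_of_nonneg (add_pos_of_pos_of_nonneg h2
      (mul_nonneg (div_nonneg hA hgi.le) ((hWW i).nonneg d)))
      (mul_nonneg (div_nonneg hB hgj.le) ((hWW (i + 1)).nonneg d))
  have h2 := (hE0 d).2 (hmax om2 hW2 hE3 d h1.ne')
  obtain ⟨h4, h5⟩ := hin d hd
  exact h2 (h4.trans h5.symm)

end Pool.Agent.Helper30.N9
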