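import Pool.Agent.Helper97.N9.Farkg
import Pool.Agent.Helper24.N9.Deg2
import Pool.Agent.Helper30.N9.Cx5

/-! MP_9b91d1_co, row SWING of Deg2 (helper97). -/

open scoped RealInnerProductSpace Topology

namespace Pool.Agent.Helper30.N9

namespace H97

/-- Rotation by the angle `φ` about the unit vector `a`. -/
noncomputable def rotA (a : E3) (φ : ℝ) (x : E3) : E3 :=
  Real.cos φ • x + ((1 - Real.cos φ) * ⟪a, x⟫) • a + Real.sin φ • crs a x

theorem crs_apply (a b : E3) : crs a b = !₂[a 1 * b 2 - a 2 * b 1, a 2 * b 0 - a 0 * b 2,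
    a 0 * b 1 - a 1 * b 0] := rfl

theorem rotA_inner {a : E3} (ha : ‖a‖ = 1) (φ : ℝ) (x y : E3) :
    ⟪rotA a φ x, rotA a φ y⟫ = ⟪x, y⟫ := by
  have haa : ⟪a, a⟫ = 1 := by rw [real_inner_self_eq_norm_sq, ha]; norm_num
  have h1 : ∀ z, ⟪crs a z, a⟫ = 0 := by
    intro z
    rw [crs_inner]
    simp only [det3]; ring
  have h2 : ⟪crs a x, crs a y⟫ = ⟪x, y⟫ - ⟪a, x⟫ * ⟪a, y⟫ := by
    have h3 : ⟪crs a x, crs a y⟫ = ⟪a, a⟫ * ⟪x, y⟫ - ⟪a, y⟫ * ⟪a, x⟫ := by
      rw [crs_inner]
      simp only [det3, inner_def, crs_apply]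
      simp
      ring
    rw [h3, haa]; ring
  have h4 : ⟪crs a x, y⟫ = - ⟪crs a y, x⟫ := by
    rw [crs_inner, crs_inner]
    simp only [det3]; ring
  have h5 := Real.sin_sq_add_cos_sq φ
  unfold rotA
  simp only [inner_add_left, inner_add_right, real_inner_smul_left, real_inner_smul_right]
  rw [real_inner_comm (crs a y) x, real_inner_comm a x, real_inner_comm (crs a y) a, h1, h1, h2,
    haa, h4]
  have h6 : Real.sin φ ^ 2 = 1 - Real.cos φ ^ 2 := by linarith
  ring_nf
  rw [h6]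
  ring

theorem rotA_norm {a : E3} (ha : ‖a‖ = 1) (φ : ℝ) {x : E3} (hx : ‖x‖ = 1) :
    ‖rotA a φ x‖ = 1 := by
  rw [norm_one_iff, rotA_inner ha, inner_self_one hx]

theorem rotA_axis {a : E3} (ha : ‖a‖ = 1) (φ : ℝ) : rotA a φ a = a := by
  unfold rotA
  rw [inner_self_one ha, crs_self, smul_zero, add_zero, mul_one, ← add_smul]
  simp

theorem rotA_neg_axis {a : E3} (ha : ‖a‖ = 1) (φ : ℝ) : rotA a φ (-a) = -a := by
  have h : crs a (-a) = 0 := by
    have := crs_smul_right (-1) a a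
    rw [neg_one_smul, crs_self, smul_zero] at this
    exact this
  unfold rotA
  rw [inner_neg_right, inner_self_one ha, h, smul_zero, add_zero, smul_neg, ← neg_smul,
    ← add_smul]
  have h2 : -Real.cos φ + (1 - Real.cos φ) * -1 = -1 := by ring
  rw [h2, neg_one_smul]

theorem rotA_zero (a x : E3) : rotA a 0 x = x := by
  unfold rotA
  simp

theorem rotA_deriv (a x : E3) (c : ℝ) :
    HasDerivAt (fun s : ℝ => rotA a (s * c) x) (c • crs a x) 0 := by
  have h0 : HasDerivAt (fun s : ℝ => s * c) c 0 := by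
    simpa using (hasDerivAt_id (0 : ℝ)).mul_const c
  have hc : HasDerivAt (fun s : ℝ => Real.cos (s * c)) 0 0 := by
    have := h0.cos
    simpa using this
  have hs : HasDerivAt (fun s : ℝ => Real.sin (s * c)) c 0 := by
    have := h0.sin
    simpa using this
  have h1 : HasDerivAt (fun s : ℝ => Real.cos (s * c) • x) ((0 : ℝ) • x) 0 := hc.smul_const x
  have h2 : HasDerivAt (fun s : ℝ => ((1 - Real.cos (s * c)) * ⟪a, x⟫) • a)
      ((-0 * ⟪a, x⟫) • a) 0 := ((hc.const_sub 1).mul_const _).smul_const a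
  have h3 : HasDerivAt (fun s : ℝ => Real.sin (s * c) • crs a x) (c • crs a x) 0 :=
    hs.smul_const _
  have h4 := (h1.add h2).add h3
  have h5 : (0 : ℝ) • x + (-0 * ⟪a, x⟫) • a + c • crs a x = c • crs a x := by simp
  rw [h5] at h4
  exact h4

theorem nmz_deriv {a x : E3} (ha : ‖a‖ = 1) (hx : ⟪a, x⟫ = 0) :
    HasDerivAt (fun s : ℝ => nmz (a + s • x)) x 0 := by
  have hn : ∀ s : ℝ, ‖a + s • x‖ = √(1 + s ^ 2 * ‖x‖ ^ 2) := by
    intro s
    rw [← norm_sq_curve ha hx, Real.sqrt_sq (norm_nonneg _)]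
  have h1 : HasDerivAt (fun s : ℝ => 1 + s ^ 2 * ‖x‖ ^ 2) 0 0 := by
    have := ((hasDerivAt_pow 2 (0 : ℝ)).mul_const (‖x‖ ^ 2)).const_add 1
    simpa using this
  have h2 : HasDerivAt (fun s : ℝ => √(1 + s ^ 2 * ‖x‖ ^ 2)) 0 0 := by
    have := h1.sqrt (by norm_num)
    simpa using this
  have h3 : HasDerivAt (fun s : ℝ => (√(1 + s ^ 2 * ‖x‖ ^ 2))⁻¹) 0 0 := by
    have := h2.fun_inv (by norm_num)
    simpa using this
  have h4 : HasDerivAt (fun s : ℝ => a + s • x) x 0 := by
    have := ((hasDerivAt_id (0 : ℝ)).smul_const x).const_add a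
    simpa using this
  have h5 := h3.fun_smul h4
  have h6 : (√(1 + (0 : ℝ) ^ 2 * ‖x‖ ^ 2))⁻¹ • x + (0 : ℝ) • (a + (0 : ℝ) • x) = x := by
    simp
  rw [h6] at h5
  have h7 : (fun s : ℝ => nmz (a + s • x)) =
      fun s : ℝ => (√(1 + s ^ 2 * ‖x‖ ^ 2))⁻¹ • (a + s • x) := by
    funext s
    rw [nmz, hn]
  rw [h7]
  exact h5

end H97

open H97 in
theorem st_SWING : ST_SWING := by
  intro V _ _ M L p a l s t hp hf hne
  classical
  have hC := hp.1
  have hE0 : ∀ d : M.G.Dart, M.E0 l d.symm ↔ M.E0 l d := by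
    intro d
    unfold PlaneGraph.E0
    rw [SimpleGraph.Dart.symm_symm]
    exact ne_comm
  let MV : Submodule ℝ (V → E3) :=
    { carrier := {del | (∀ v, ⟪p v, del v⟫ = 0) ∧ ∃ c : V → ℝ,
        (∀ v, M.OnE l v → del v = c v • crs a (p v)) ∧
        ∀ d, M.E0 l d → d.fst ≠ s → d.fst ≠ t → d.snd ≠ s → d.snd ≠ t → c d.fst = c d.snd}
      add_mem' := by
        rintro x y ⟨hx, c, hc, hc'⟩ ⟨hy, e, he, he'⟩
        refine ⟨fun v => ?_, fun v => c v + e v, fun v hv => ?_, fun d hd h1 h2 h3 h4 => ?_⟩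
        · rw [Pi.add_apply, inner_add_right, hx, hy, add_zero]
        · rw [Pi.add_apply, hc v hv, he v hv, add_smul]
        · change c d.fst + e d.fst = c d.snd + e d.snd
          rw [hc' d hd h1 h2 h3 h4, he' d hd h1 h2 h3 h4]
      zero_mem' := ⟨fun v => by simp, fun _ => 0, fun v _ => by simp, fun d _ _ _ _ _ => rfl⟩
      smul_mem' := by
        rintro r x ⟨hx, c, hc, hc'⟩
        refine ⟨fun v => ?_, fun v => r * c v, fun v hv => ?_, fun d hd h1 h2 h3 h4 => ?_⟩
        · rw [Pi.smul_apply, real_inner_smul_right, hx, mul_zero]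
        · rw [Pi.smul_apply, hc v hv, mul_smul]
        · change r * c d.fst = r * c d.snd
          rw [hc' d hd h1 h2 h3 h4] }
  have hMV : ∀ del : V → E3, del ∈ MV ↔ (∀ v, ⟪p v, del v⟫ = 0) ∧ ∃ c : V → ℝ,
        (∀ v, M.OnE l v → del v = c v • crs a (p v)) ∧
        ∀ d, M.E0 l d → d.fst ≠ s → d.fst ≠ t → d.snd ≠ s → d.snd ≠ t → c d.fst = c d.snd :=
    fun del => Iff.rfl
  have hmot : ∀ del ∈ MV, ∃ gam : ℝ → V → E3, gam 0 = p ∧ (∀ s v, ‖gam s v‖ = 1) ∧
      (∀ v, HasDerivAt (fun s => gam s v) (del v) 0) ∧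
      ∀ s d, M.E0 l d → ⟪gam s d.fst, gam s d.snd⟫ = ⟪p d.fst, p d.snd⟫ := by
    intro del hdel
    obtain ⟨h0, c, hc, hc'⟩ := (hMV del).1 hdel
    refine ⟨fun σ v => if M.OnE l v then rotA a (σ * c v) (p v) else nmz (p v + σ • del v),
      ?_, ?_, ?_, ?_⟩
    · funext v
      change (if M.OnE l v then rotA a (0 * c v) (p v) else nmz (p v + (0 : ℝ) • del v)) = p v
      split_ifs
      · rw [zero_mul, rotA_zero]
      · rw [zero_smul, add_zero, nmz_of_unit (hC.unit v)]
    · intro σ v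
      change ‖if M.OnE l v then rotA a (σ * c v) (p v) else nmz (p v + σ • del v)‖ = 1
      split_ifs
      · exact rotA_norm hf.ua _ (hC.unit v)
      · rw [nmz, norm_smul, norm_inv, norm_norm,
          inv_mul_cancel₀ (norm_ne_zero_iff.2 (curve_ne (hC.unit v) (h0 v) σ))]
    · intro v
      by_cases hv : M.OnE l v
      · simp only [if_pos hv]
        rw [hc v hv]
        exact rotA_deriv a (p v) (c v)
      · simp only [if_neg hv]
        exact nmz_deriv (hC.unit v) (h0 v)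
    · intro σ d hd
      have h1 : M.OnE l d.fst := ⟨d, rfl, hd⟩
      have h2 : M.OnE l d.snd := ⟨d.symm, rfl, (hE0 d).2 hd⟩
      simp only [if_pos h1, if_pos h2]
      have hfix : ∀ v, (v = s ∨ v = t) → ∀ φ, rotA a φ (p v) = p v := by
        rintro v (rfl | rfl) φ
        · rw [hf.ps]; exact rotA_axis hf.ua φ
        · rw [hf.pt]; exact rotA_neg_axis hf.ua φ
      by_cases h3 : d.fst = s ∨ d.fst = t
      · rw [hfix _ h3, ← rotA_inner hf.ua (σ * c d.snd) (p d.fst) (p d.snd), hfix _ h3]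
      by_cases h4 : d.snd = s ∨ d.snd = t
      · rw [hfix _ h4, ← rotA_inner hf.ua (σ * c d.fst) (p d.fst) (p d.snd), hfix _ h4]
      push Not at h3 h4
      rw [hc' d hd h3.1 h3.2 h4.1 h4.2, rotA_inner hf.ua]
  obtain ⟨om, hw, hz, hn, hs⟩ := st_FARKG V M p hp MV (M.E0 l) hE0 hne hmot
  -- sums over darts
  have hsym : ∀ F : M.G.Dart → ℝ, ∑ d : M.G.Dart, F d.symm = ∑ d, F d := fun F =>
    Equiv.sum_comp (Function.Involutive.toPerm _ SimpleGraph.Dart.symm_involutive) F
  have hs2 : ∀ del ∈ MV, ∑ d : M.G.Dart, om d * ⟪del d.fst, p d.snd⟫ = 0 := by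
    intro del hdel
    have h1 := hs del hdel
    have h2 : ∑ d : M.G.Dart, om d * ⟪p d.fst, del d.snd⟫ =
        ∑ d : M.G.Dart, om d * ⟪del d.fst, p d.snd⟫ := by
      rw [← hsym]
      refine Finset.sum_congr rfl fun d _ => ?_
      rw [hw.symm]
      change om d * ⟪p d.snd, del d.fst⟫ = _
      rw [real_inner_comm]
    simp only [mul_add, Finset.sum_add_distrib] at h1
    rw [h2] at h1
    linarith
  refine ⟨om, hw, hz, hn, ?_, ?_⟩
  · intro v hv
    have hy : ∀ y : E3, ⟪∑ d ∈ Finset.univ.filter (fun d : M.G.Dart => d.fst = v),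
        om d • crs (p d.fst) (p d.snd), y⟫ = 0 := by
      intro y
      have hdel : (Pi.single v (crs y (p v)) : V → E3) ∈ MV := by
        rw [hMV]
        refine ⟨fun u => ?_, fun _ => 0, fun u hu => ?_, fun d _ _ _ _ _ => rfl⟩
        · by_cases huv : u = v
          · subst huv
            rw [Pi.single_eq_same, real_inner_comm, crs_inner]
            simp only [det3]; ring
          · rw [Pi.single_eq_of_ne huv, inner_zero_right]
        · have huv : u ≠ v := fun h => hv (h ▸ hu)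
          rw [Pi.single_eq_of_ne huv, zero_smul]
      have h1 := hs2 _ hdel
      rw [sum_inner, Finset.sum_filter]
      refine (Finset.sum_congr rfl fun d _ => ?_).trans h1
      by_cases hd : d.fst = v
      · rw [if_pos hd, hd, Pi.single_eq_same, real_inner_smul_left, crs_inner, crs_inner]
        simp only [det3]; ring
      · rw [if_neg hd, Pi.single_eq_of_ne hd, inner_zero_left, mul_zero]
    unfold PlaneGraph.EqAt
    have h2 := hy (∑ d ∈ Finset.univ.filter (fun d : M.G.Dart => d.fst = v),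
        om d • crs (p d.fst) (p d.snd))
    exact inner_self_eq_zero.1 h2
  · intro c hc
    have hdel : (fun v => c v • crs a (p v)) ∈ MV := by
      rw [hMV]
      refine ⟨fun v => ?_, c, fun v _ => rfl, hc⟩
      rw [real_inner_smul_right, real_inner_comm, crs_inner]
      simp only [det3]; ring
    have h1 := hs2 _ hdel
    refine (Finset.sum_congr rfl fun d _ => ?_).trans h1
    rw [real_inner_smul_left, crs_inner]

end Pool.Agent.Helper30.N9
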