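import Pool.Agent.Helper97.N9.Farkas
import Pool.Agent.Helper74.N9.Open
import Pool.Agent.Helper24.N9.Deg1

/-! MP_9b91d1_co: general form of FARKAS (velocities in a subspace, some edges kept). -/

open scoped RealInnerProductSpace Topology

namespace Pool.Agent.Helper30.N9

namespace H97

open Filter

/-- Alternative of Gordan for linear forms on a real vector space. -/
theorem gordan' {ι E : Type} [Fintype ι] [DecidableEq ι] [AddCommGroup E] [Module ℝ E]
    (l : ι → E →ₗ[ℝ] ℝ) (h : ¬ ∃ x, ∀ i, 0 < l i x) :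
    ∃ w : ι → ℝ, (∀ i, 0 ≤ w i) ∧ 0 < ∑ i, w i ∧ ∀ x, ∑ i, w i * l i x = 0 := by
  let Φ : E →ₗ[ℝ] (ι → ℝ) := LinearMap.pi l
  have hΦ : ∀ x i, Φ x i = l i x := fun x i => rfl
  have hO1 : Convex ℝ {x : ι → ℝ | ∀ i, 0 < x i} := by
    have : {x : ι → ℝ | ∀ i, 0 < x i} = Set.pi Set.univ fun _ : ι => Set.Ioi (0 : ℝ) := by
      ext x; simp
    rw [this]
    exact convex_pi fun i _ => convex_Ioi 0
  have hO2 : IsOpen {x : ι → ℝ | ∀ i, 0 < x i} := by
    have : {x : ι → ℝ | ∀ i, 0 < x i} = Set.pi Set.univ fun _ : ι => Set.Ioi (0 : ℝ) := by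
      ext x; simp
    rw [this]
    exact isOpen_set_pi Set.finite_univ fun i _ => isOpen_Ioi
  have hS : Convex ℝ ((LinearMap.range Φ : Submodule ℝ (ι → ℝ)) : Set (ι → ℝ)) :=
    Submodule.convex _
  have hdis : Disjoint {x : ι → ℝ | ∀ i, 0 < x i}
      ((LinearMap.range Φ : Submodule ℝ (ι → ℝ)) : Set (ι → ℝ)) := by
    rw [Set.disjoint_left]
    rintro _ hx ⟨y, rfl⟩
    exact h ⟨y, fun i => hx i⟩
  obtain ⟨f, u, h1, h2⟩ := geometric_hahn_banach_open hO1 hO2 hS hdis
  have hu : u ≤ 0 := by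
    have := h2 0 ⟨0, map_zero _⟩
    rwa [map_zero] at this
  have hzero : ∀ x, f (Φ x) = 0 := by
    intro x
    by_contra hne
    have h3 := h2 (Φ (((u - 1) / f (Φ x)) • x)) ⟨_, rfl⟩
    rw [map_smul, map_smul, smul_eq_mul, div_mul_cancel₀ _ hne] at h3
    linarith
  have hone : f (fun _ => 1) < 0 := (h1 (fun _ => 1) fun _ => one_pos).trans_le hu
  have hle : ∀ i, f (Pi.single i 1) ≤ 0 := by
    intro i
    by_contra hc
    push Not at hc
    set ε := f (Pi.single i 1) / (2 * - f (fun _ => 1)) with hε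
    have hε0 : 0 < ε := div_pos hc (by linarith)
    have h4 := h1 (Pi.single i 1 + ε • fun _ => 1) (by
      intro j
      change 0 < (Pi.single i 1 : ι → ℝ) j + ε * 1
      have : 0 ≤ (Pi.single i 1 : ι → ℝ) j := by
        rw [Pi.single_apply]; split_ifs <;> norm_num
      linarith)
    rw [map_add, map_smul, smul_eq_mul] at h4
    have h5 : ε * f (fun _ => 1) = - (f (Pi.single i 1) / 2) := by
      rw [hε]
      have : f (fun _ => (1 : ℝ)) ≠ 0 := hone.ne
      field_simp
    rw [h5] at h4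
    linarith
  have hsum : ∀ y : ι → ℝ, f y = ∑ i, y i * f (Pi.single i 1) := by
    intro y
    conv_lhs => rw [← Finset.univ_sum_single y, map_sum]
    refine Finset.sum_congr rfl fun i _ => ?_
    have : (Pi.single i (y i) : ι → ℝ) = y i • Pi.single i 1 := by
      rw [← Pi.single_smul, smul_eq_mul, mul_one]
    rw [this, map_smul, smul_eq_mul]
  refine ⟨fun i => - f (Pi.single i 1), fun i => by linarith [hle i], ?_, ?_⟩
  · have h6 := hsum fun _ => 1
    simp only [one_mul] at h6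
    rw [Finset.sum_neg_distrib, ← h6]
    linarith
  · intro x
    have h6 := hsum (Φ x)
    rw [hzero x] at h6
    have h7 : ∑ i, - f (Pi.single i 1) * l i x = - ∑ i, Φ x i * f (Pi.single i 1) := by
      rw [← Finset.sum_neg_distrib]
      refine Finset.sum_congr rfl fun i _ => ?_
      rw [hΦ]; ring
    rw [h7, ← h6, neg_zero]

theorem ev_lt {g : ℝ → ℝ} {g' : ℝ} (h : HasDerivAt g g' 0) (hg : 0 < g') :
    ∀ᶠ s in 𝓝[>] (0 : ℝ), g 0 < g s := by
  have h1 := (hasDerivAt_iff_tendsto_slope.1 h).eventually (eventually_gt_nhds hg)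
  have h2 : ∀ᶠ s in 𝓝[>] (0 : ℝ), 0 < slope g 0 s :=
    h1.filter_mono (nhdsWithin_mono _ fun x hx => ne_of_gt hx)
  filter_upwards [h2, self_mem_nhdsWithin] with s hs hs0
  have hs0' : 0 < s := hs0
  rw [slope_def_field, sub_zero, lt_div_iff₀ hs0', zero_mul] at hs
  linarith

end H97

open H97 Filter in
theorem st_FARKG : ST_FARKG := by
  intro V _ _ M p hp MV Fx hsym hne hMV
  classical
  obtain ⟨hC, ε, hε, hmin⟩ := hp
  obtain ⟨δ, hδ, hop⟩ := N9Open.st_OPEN V M p hC
  obtain ⟨d0, hd0⟩ := hne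
  let D := {d : M.G.Dart // ¬ Fx d}
  let l0 : M.G.Dart → (V → E3) →ₗ[ℝ] ℝ := fun d =>
    { toFun := fun del => ⟪del d.fst, p d.snd⟫ + ⟪p d.fst, del d.snd⟫
      map_add' := by
        intro x y
        simp only [Pi.add_apply, inner_add_left, inner_add_right]
        ring
      map_smul' := by
        intro c x
        simp only [Pi.smul_apply, real_inner_smul_left, real_inner_smul_right, smul_eq_mul,
          RingHom.id_apply]
        ring }
  have hl0 : ∀ d del, l0 d del = ⟪del d.fst, p d.snd⟫ + ⟪p d.fst, del d.snd⟫ := fun _ _ => rfl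
  let l : D → MV →ₗ[ℝ] ℝ := fun d => (l0 d.1).comp MV.subtype
  have hno : ¬ ∃ x, ∀ d, 0 < l d x := by
    rintro ⟨⟨del, hdel⟩, hx⟩
    obtain ⟨gam, hg0, hgu, hgd, hgF⟩ := hMV del hdel
    have hev : ∀ᶠ s in 𝓝[>] (0 : ℝ), (∀ d : D, ⟪p d.1.fst, p d.1.snd⟫ <
        ⟪gam s d.1.fst, gam s d.1.snd⟫) ∧
        (∀ v, dist (gam s v) (p v) < δ) ∧ (∀ v, dist (gam s v) (p v) < ε) := by
      have hcont : ∀ {r : ℝ}, 0 < r → ∀ v, ∀ᶠ s in 𝓝[>] (0 : ℝ), dist (gam s v) (p v) < r := by
        intro r hr v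
        have h1 := (hgd v).continuousAt.tendsto
        rw [hg0] at h1
        exact ((Metric.tendsto_nhds.1 h1) r hr).filter_mono nhdsWithin_le_nhds
      refine (eventually_all.2 fun d => ?_).and
        ((eventually_all.2 fun v => hcont hδ v).and (eventually_all.2 fun v => hcont hε v))
      have h1 := (hgd d.1.fst).inner ℝ (hgd d.1.snd)
      have h2 : 0 < ⟪gam 0 d.1.fst, del d.1.snd⟫ + ⟪del d.1.fst, gam 0 d.1.snd⟫ := by
        rw [hg0, add_comm]
        exact hx d
      have h3 := ev_lt h1 h2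
      simp only [hg0] at h3
      exact h3
    obtain ⟨s, h1, h2, h3⟩ := hev.exists
    have hqC : M.InC (gam s) := hop _ (hgu s) h2
    have hlt : ∀ d : D, ang (gam s d.1.fst) (gam s d.1.snd) < ang (p d.1.fst) (p d.1.snd) :=
      fun d => Real.strictAntiOn_arccos (inner_mem (hC.unit _) (hC.unit _))
        (inner_mem (hgu _ _) (hgu _ _)) (h1 d)
    have hLe : M.Le (gam s) p := by
      intro d
      by_cases hd : Fx d
      · unfold ang
        rw [hgF s d hd]
      · exact (hlt ⟨d, hd⟩).le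
    have h4 := hmin _ hqC h3 hLe d0
    have h5 := hlt ⟨d0, hd0⟩
    exact absurd h4 h5.ne
  obtain ⟨w, hw0, hw1, hw⟩ := gordan' l hno
  let wt : M.G.Dart → ℝ := fun d => if h : ¬ Fx d then w ⟨d, h⟩ else 0
  have hwtD : ∀ d : D, wt d.1 = w d := fun d => dif_pos d.2
  have hwtF : ∀ d, Fx d → wt d = 0 := fun d hd => dif_neg (not_not.2 hd)
  have hwt0 : ∀ d, 0 ≤ wt d := by
    intro d
    change 0 ≤ if h : ¬ Fx d then w ⟨d, h⟩ else 0
    split_ifs
    · exact le_rfl
    · exact hw0 _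
  have hsum : ∀ F : M.G.Dart → ℝ, ∑ d : D, w d * F d.1 = ∑ d, wt d * F d := by
    intro F
    have h1 : ∑ d : D, w d * F d.1 = ∑ d : D, wt d.1 * F d.1 :=
      Finset.sum_congr rfl fun d _ => by rw [hwtD]
    rw [h1, Finset.sum_subtype (Finset.univ.filter fun d : M.G.Dart => ¬ Fx d)
      (p := fun d : M.G.Dart => ¬ Fx d) (by simp) (fun d => wt d * F d) |>.symm]
    rw [Finset.sum_filter]
    refine Finset.sum_congr rfl fun d _ => ?_
    split_ifs with h
    · rw [hwtF d h, zero_mul]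
    · rfl
  refine ⟨fun d => wt d + wt d.symm, ⟨fun d => add_nonneg (hwt0 _) (hwt0 _), ?_⟩, ?_, ?_, ?_⟩
  · intro d
    rw [SimpleGraph.Dart.symm_symm, add_comm]
  · intro d hd
    change wt d + wt d.symm = 0
    rw [hwtF d hd, hwtF d.symm ((hsym d).2 hd), add_zero]
  · by_contra hz
    push Not at hz
    have h1 : ∀ d, wt d = 0 := by
      intro d
      have := hz d
      have := hwt0 d
      have := hwt0 d.symm
      linarith
    have h2 : ∑ d : D, w d = 0 := Finset.sum_eq_zero fun d _ => by rw [← hwtD, h1]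
    rw [h2] at hw1
    exact lt_irrefl _ hw1
  · intro del hdel
    have h1 := hw ⟨del, hdel⟩
    have h2 : ∑ d : D, w d * l d ⟨del, hdel⟩ = ∑ d, wt d * l0 d del := hsum fun d => l0 d del
    rw [h2] at h1
    have h3 : ∑ d : M.G.Dart, wt d.symm * l0 d del = ∑ d : M.G.Dart, wt d * l0 d del := by
      refine (Equiv.sum_comp (Function.Involutive.toPerm _
        SimpleGraph.Dart.symm_involutive) _).symm.trans ?_
      refine Finset.sum_congr rfl fun d _ => ?_
      change wt d.symm.symm * l0 d.symm del = wt d * l0 d del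
      rw [SimpleGraph.Dart.symm_symm, hl0, hl0]
      change wt d * (⟪del d.snd, p d.fst⟫ + ⟪p d.snd, del d.fst⟫) = _
      rw [real_inner_comm (p d.fst), real_inner_comm (del d.fst), add_comm]
    have h4 : ∑ d : M.G.Dart, (wt d + wt d.symm) * l0 d del =
        ∑ d, wt d * l0 d del + ∑ d : M.G.Dart, wt d.symm * l0 d del := by
      rw [← Finset.sum_add_distrib]
      exact Finset.sum_congr rfl fun d _ => by ring
    change ∑ d : M.G.Dart, (wt d + wt d.symm) * l0 d del = 0
    rw [h4, h3, h1, add_zero]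

end Pool.Agent.Helper30.N9
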